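import Pool.Agent.Helper39.GM.Uni

/-!
# The number of the cofinal branches
-/

set_option autoImplicit false

namespace Pool.Agent.Helper39.GM

open Cardinal Ordinal

universe u

lemma inter_mem_iff {y : ZFSet.{u}} {β ξ : Ordinal.{u}} :
    ξ.toZFSet ∈ y ∩ β.toZFSet ↔ ξ.toZFSet ∈ y ∧ ξ < β := by
  rw [ZFSet.mem_inter, toZFSet_mem_toZFSet_iff]

open Classical in
/-- characteristic function -/
noncomputable def chi (l : Cardinal.{u}) (y : ZFSet.{u}) : l.ord.ToType → Bool :=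
  fun d => decide ((ToType.mk.symm d : Ordinal.{u}).toZFSet ∈ y)

lemma chi_eq {l : Cardinal.{u}} {y z : ZFSet.{u}} {d : l.ord.ToType}
    (h : (ToType.mk.symm d : Ordinal.{u}).toZFSet ∈ y ↔ (ToType.mk.symm d : Ordinal.{u}).toZFSet ∈ z) :
    chi l y d = chi l z d := by
  unfold chi
  exact decide_eq_decide.2 h

lemma chi_inj {l : Cardinal.{u}} {y z : ZFSet.{u}} (hy : y ⊆ l.ord.toZFSet)
    (hz : z ⊆ l.ord.toZFSet) (h : chi l y = chi l z) : y = z := by
  have key : ∀ ξ < l.ord, ξ.toZFSet ∈ y ↔ ξ.toZFSet ∈ z := by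
    intro ξ hξ
    have h1 := congrFun h (ToType.mk ⟨ξ, hξ⟩)
    unfold chi at h1
    have h2 : ((ToType.mk.symm (ToType.mk ⟨ξ, hξ⟩) : Set.Iio l.ord) : Ordinal.{u}) = ξ := by
      rw [OrderIso.symm_apply_apply]
    rw [h2] at h1
    exact decide_eq_decide.1 h1
  ext w
  constructor
  · intro hw
    obtain ⟨ξ, hξ, rfl⟩ := mem_toZFSet_iff.1 (hy hw)
    exact (key ξ hξ).1 hw
  · intro hw
    obtain ⟨ξ, hξ, rfl⟩ := mem_toZFSet_iff.1 (hz hw)
    exact (key ξ hξ).2 hw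

/-- few cofinal branches -/
theorem card_Br {l δ : Cardinal.{u}} (hl : l.IsRegular) (hlδ : l ≤ δ)
    (hG : GMP (Order.succ l) l) (hreg : ∀ ν, l < ν → ν ≤ δ → ν.ord.cof ≠ l) (t : ZFSet.{u})
    (ht : t.card ≤ δ) : (Br l t).card ≤ δ := by
  have hl0 := hl.aleph0_le
  obtain ⟨F, hF1, hF2, hF3⟩ := cov hl t.card (fun ν h1 h2 => hreg ν h1 (h2.trans ht))
    (Shrink.{u} t) rfl
  -- the set of the characteristic functions
  let B : Set (Shrink.{u} t) → Set (l.ord.ToType → Bool) := fun S =>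
    {b | ∃ f : l.ord.ToType → Shrink.{u} t, #{d | f d ∈ S} = l ∧
      ∀ d, ∀ e < d, b e = chi l ((equivShrink t).symm (f d)).1 e}
  have hB : ∀ S : F, #(B S.1) ≤ l := by
    intro S
    refine kurepa hl hG _ ?_
    have h1 : nodes (B S.1) ⊆ Set.range (fun p : l.ord.ToType × S.1 =>
        ((p.1, tr p.1 (chi l ((equivShrink t).symm p.2.1).1)) : _ × _)) := by
      rintro ⟨e, s⟩ ⟨b, ⟨f, hf, hb⟩, hs⟩
      simp only at hs
      obtain ⟨d, hd, hed⟩ : ∃ d, f d ∈ S.1 ∧ e ≤ d := by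
        by_contra hcon
        push Not at hcon
        have h2 : #{d | f d ∈ S.1} ≤ #(Set.Iio e) := mk_le_mk_of_subset fun d hd => hcon d hd
        rw [hf] at h2
        exact absurd h2 (not_le.2 (Iio_lt e))
      refine ⟨(e, ⟨f d, hd⟩), ?_⟩
      rw [hs]
      refine Prod.ext rfl (funext fun x => ?_)
      show tr e (chi l ((equivShrink t).symm (f d)).1) x = tr e b x
      unfold tr
      by_cases hx : x < e
      · rw [if_pos hx, if_pos hx]
        exact (hb d x (hx.trans_le hed)).symm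
      · rw [if_neg hx, if_neg hx]
    refine (mk_le_mk_of_subset h1).trans (mk_range_le.trans ?_)
    rw [mk_prod, Cardinal.lift_id, Cardinal.lift_id, mk_ord_toType]
    exact mul_le_of_le hl0 le_rfl (hF2 _ S.2)
  have hU : #(⋃ S : F, B S.1) ≤ δ := by
    refine (mk_iUnion_le _).trans (mul_le_of_le (hl0.trans hlδ) (hF1.trans (max_le hlδ ht)) ?_)
    exact ciSup_le' fun S => (hB S).trans hlδ
  have hmem : ∀ y ∈ Br l t, chi l y ∈ ⋃ S : F, B S.1 := by
    intro y hy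
    obtain ⟨-, hy2⟩ := ZFSet.mem_sep.1 hy
    have h1 : ∀ d : l.ord.ToType, ∃ x : Shrink.{u} t,
        ∀ e < d, chi l y e = chi l ((equivShrink t).symm x).1 e := by
      intro d
      obtain ⟨β, hβ, -, hβt⟩ := hy2 (ToType.mk.symm d : Ordinal.{u})
        (Set.mem_Iio.1 (ToType.mk.symm d).2)
      refine ⟨equivShrink t ⟨_, hβt⟩, fun e he => ?_⟩
      rw [Equiv.symm_apply_apply]
      refine chi_eq ?_
      rw [inter_mem_iff]
      refine ⟨fun h => ⟨h, ?_⟩, fun h => h.1⟩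
      have h3 : (ToType.mk.symm e : Ordinal.{u}) < (ToType.mk.symm d : Ordinal.{u}) :=
        (ToType.mk.symm.lt_iff_lt).2 he
      exact h3.trans_le hβ
    choose f hf using h1
    obtain ⟨S, hS, h2⟩ := hF3 f
    exact Set.mem_iUnion.2 ⟨⟨S, hS⟩, f, h2, hf⟩
  rw [← Cardinal.lift_le.{u + 1}, ← ZFSet.cardinalMk_coe_sort]
  refine le_trans ?_ (Cardinal.lift_le.{u + 1}.2 hU)
  have h1 : Function.Injective (fun y : Br l t => (⟨chi l y.1, hmem y.1 y.2⟩ :
      ↥(⋃ S : F, B S.1))) := by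
    intro y z hyz
    have h2 := congrArg Subtype.val hyz
    refine Subtype.ext (chi_inj ?_ ?_ h2)
    · exact ZFSet.mem_powerset.1 (ZFSet.mem_sep.1 y.2).1
    · exact ZFSet.mem_powerset.1 (ZFSet.mem_sep.1 z.2).1
  have h2 := lift_mk_le_lift_mk_of_injective h1
  rwa [Cardinal.lift_id'.{u, u + 1}] at h2

end Pool.Agent.Helper39.GM
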