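import Pool.Agent.Helper39.GM.Kurepa

/-!
# Covering functions on a regular cardinal by small sets, and the values of `2 ^ δ`
-/

set_option autoImplicit false

namespace Pool.Agent.Helper39.GM

open Cardinal

universe u

/-- `α` is covered by few sets of size `δ`, in the sense that every function from `δ` to `α` has
many values in one of them -/
def Cov (δ : Cardinal.{u}) (α : Type u) : Prop :=
  ∃ F : Set (Set α), #F ≤ max δ #α ∧ (∀ S ∈ F, #S ≤ δ) ∧
    ∀ f : δ.ord.ToType → α, ∃ S ∈ F, #{d | f d ∈ S} = δ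

lemma card_le (δ : Cardinal.{u}) (S : Set δ.ord.ToType) : #S ≤ δ := by
  refine (mk_set_le S).trans ?_
  rw [mk_ord_toType]

lemma Cov.of_equiv {δ : Cardinal.{u}} {α β : Type u} (e : α ≃ β) (h : Cov δ α) : Cov δ β := by
  obtain ⟨F, h1, h2, h3⟩ := h
  refine ⟨(fun S => e '' S) '' F, ?_, ?_, ?_⟩
  · rw [← mk_congr e]
    exact mk_image_le.trans h1
  · rintro _ ⟨S, hS, rfl⟩
    exact mk_image_le.trans (h2 S hS)
  · intro f
    obtain ⟨S, hS, h4⟩ := h3 fun d => e.symm (f d)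
    refine ⟨_, ⟨S, hS, rfl⟩, ?_⟩
    have h5 : {d | f d ∈ e '' S} = {d | e.symm (f d) ∈ S} := by
      ext d
      simp only [Set.mem_ofPred_eq, Set.mem_image]
      constructor
      · rintro ⟨a, ha, h5⟩
        rw [← h5, Equiv.symm_apply_apply]
        exact ha
      · intro h5
        exact ⟨_, h5, Equiv.apply_symm_apply _ _⟩
    show #{d | f d ∈ e '' S} = δ
    rw [h5]
    exact h4

/-- some initial segment contains many values -/
lemma exists_initial {δ μ : Cardinal.{u}} (hδ : δ.IsRegular) (hμ : δ < μ)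
    (hcof : μ.ord.cof ≠ δ) (f : δ.ord.ToType → μ.ord.ToType) :
    ∃ i, #{d | f d < i} = δ := by
  have hμ0 : ℵ₀ ≤ μ := hδ.aleph0_le.trans hμ.le
  have hmax : ∀ i : μ.ord.ToType, ∃ j, i < j := by
    intro i
    by_contra hcon
    push Not at hcon
    have h1 : #μ.ord.ToType ≤ #(Set.Iio i) + 1 := by
      have h2 : (Set.univ : Set μ.ord.ToType) ⊆ insert i (Set.Iio i) := by
        intro x _
        rcases (hcon x).eq_or_lt with h | h
        · exact Or.inl h
        · exact Or.inr h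
      calc #μ.ord.ToType = #(Set.univ : Set μ.ord.ToType) := mk_univ.symm
        _ ≤ #(insert i (Set.Iio i) : Set _) := mk_le_mk_of_subset h2
        _ ≤ #(Set.Iio i) + 1 := mk_insert_le
    rw [mk_ord_toType] at h1
    have h3 : #(Set.Iio i) < μ := by
      have := mk_Iio_lt i (by rw [mk_ord_toType, Ordinal.type_toType])
      rwa [mk_ord_toType] at this
    exact absurd h1 (not_le.2 (add_lt_of_lt hμ0 h3 (one_lt_aleph0.trans_le hμ0)))
  rcases lt_or_gt_of_ne hcof with h | h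
  · -- small cofinality
    obtain ⟨s, hs, hs'⟩ := Order.exists_cof_eq μ.ord.ToType
    rw [Ordinal.cof_toType] at hs'
    by_contra hcon
    push Not at hcon
    have h1 : #(⋃ i : s, {d | f d ≤ i.1}) < δ := by
      rw [card_iUnion_lt_iff_forall_of_isRegular hδ (by rw [hs']; exact h)]
      intro i
      obtain ⟨j, hj⟩ := hmax i.1
      refine lt_of_le_of_lt (mk_le_mk_of_subset fun d hd => ?_)
        (lt_of_le_of_ne (card_le δ _) (hcon j))
      exact lt_of_le_of_lt hd hj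
    have h2 : (⋃ i : s, {d | f d ≤ i.1}) = Set.univ := by
      rw [Set.eq_univ_iff_forall]
      intro d
      obtain ⟨i, hi, hi'⟩ := hs (f d)
      exact Set.mem_iUnion.2 ⟨⟨i, hi⟩, hi'⟩
    rw [h2, mk_univ, mk_ord_toType] at h1
    exact lt_irrefl _ h1
  · -- large cofinality
    have h1 : ¬ IsCofinal (Set.range f) := by
      intro h2
      have h3 := Order.cof_le h2
      rw [Ordinal.cof_toType] at h3
      have h4 : #(Set.range f) ≤ δ := by
        refine mk_range_le.trans ?_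
        rw [mk_ord_toType]
      exact absurd (h3.trans h4) (not_le.2 h)
    unfold IsCofinal at h1
    push Not at h1
    obtain ⟨i, hi⟩ := h1
    refine ⟨i, ?_⟩
    have h2 : {d | f d < i} = Set.univ := by
      rw [Set.eq_univ_iff_forall]
      intro d
      exact hi _ ⟨d, rfl⟩
    rw [h2, mk_univ, mk_ord_toType]

/-- the covering lemma -/
theorem cov {δ : Cardinal.{u}} (hδ : δ.IsRegular) (μ : Cardinal.{u}) :
    (∀ ν, δ < ν → ν ≤ μ → ν.ord.cof ≠ δ) → ∀ α : Type u, #α = μ → Cov δ α := by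
  induction μ using WellFoundedLT.induction with
  | ind μ ih =>
  intro hμ α hα
  rcases le_or_gt μ δ with h | h
  · refine ⟨{Set.univ}, ?_, ?_, ?_⟩
    · rw [mk_singleton]
      exact (one_lt_aleph0.le.trans hδ.aleph0_le).trans (le_max_left _ _)
    · rintro _ rfl
      rw [mk_univ, hα]
      exact h
    · intro f
      refine ⟨_, rfl, ?_⟩
      simp
  · have hμ0 : ℵ₀ ≤ μ := hδ.aleph0_le.trans h.le
    have e : Nonempty (μ.ord.ToType ≃ α) := by
      rw [← Cardinal.eq, mk_ord_toType, hα]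
    obtain ⟨e⟩ := e
    refine Cov.of_equiv e ?_
    have hlt : ∀ i : μ.ord.ToType, #(Set.Iio i) < μ := by
      intro i
      have := mk_Iio_lt i (by rw [mk_ord_toType, Ordinal.type_toType])
      rwa [mk_ord_toType] at this
    have h1 : ∀ i : μ.ord.ToType, Cov δ (Set.Iio i) := fun i =>
      ih _ (hlt i) (fun ν h2 h3 => hμ ν h2 (h3.trans (hlt i).le)) _ rfl
    choose F hF1 hF2 hF3 using h1
    refine ⟨⋃ i, (fun S => Subtype.val '' S) '' F i, ?_, ?_, ?_⟩
    · rw [mk_ord_toType, max_eq_right h.le]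
      refine (mk_iUnion_le _).trans (mul_le_of_le hμ0 (mk_ord_toType μ).le ?_)
      refine ciSup_le' fun i => ?_
      refine mk_image_le.trans ((hF1 i).trans (max_le h.le (hlt i).le))
    · intro S hS
      obtain ⟨i, T, hT, rfl⟩ := Set.mem_iUnion.1 hS
      exact mk_image_le.trans (hF2 i T hT)
    · intro f
      obtain ⟨i, hi⟩ := exists_initial hδ h (hμ μ h le_rfl) f
      obtain ⟨g⟩ : Nonempty (δ.ord.ToType ≃ {d | f d < i}) := by
        rw [← Cardinal.eq, mk_ord_toType, hi]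
      obtain ⟨S, hS, h2⟩ := hF3 i fun d => ⟨f (g d), (g d).2⟩
      refine ⟨_, Set.mem_iUnion.2 ⟨i, S, hS, rfl⟩, le_antisymm (card_le δ _) ?_⟩
      refine h2.symm.le.trans ?_
      refine mk_le_of_injective
        (f := fun d : {d | (⟨f (g d), (g d).2⟩ : Set.Iio i) ∈ S} =>
          (⟨(g d.1).1, ⟨_, d.2, rfl⟩⟩ : {d | f d ∈ Subtype.val '' S})) ?_
      intro d d' hdd
      have h3 := congrArg Subtype.val hdd
      exact Subtype.ext (g.injective (Subtype.ext h3))

lemma mk_nodes_le {δ μ : Cardinal.{u}} (hδ : ℵ₀ ≤ δ) (hδμ : δ ≤ μ)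
    (h : ∀ d : δ.ord.ToType, (2 : Cardinal.{u}) ^ #(Set.Iio d) ≤ μ)
    (B : Set (δ.ord.ToType → Bool)) : #(nodes B) ≤ μ := by
  have h1 : #(Σ d : δ.ord.ToType, (Set.Iio d → Bool)) ≤ μ := by
    rw [mk_sigma]
    refine (sum_le_mk_mul_iSup _).trans (mul_le_of_le (hδ.trans hδμ) ?_ ?_)
    · rw [mk_ord_toType]
      exact hδμ
    · refine ciSup_le' fun d => ?_
      refine le_trans ?_ (h d)
      simp
  refine le_trans ?_ h1
  refine mk_le_of_injective (f := fun t : nodes B => ⟨t.1.1, fun e => t.1.2 e.1⟩) ?_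
  rintro ⟨⟨d, s⟩, b, hb, hs⟩ ⟨⟨d', s'⟩, b', hb', hs'⟩ hst
  simp only [Sigma.mk.injEq] at hst
  obtain ⟨rfl, hst⟩ := hst
  have hst := eq_of_heq hst
  refine Subtype.ext (Prod.ext rfl (funext fun e => ?_))
  show s e = s' e
  simp only at hs hs'
  by_cases he : e < d
  · exact congrFun hst ⟨e, he⟩
  · rw [hs, hs']
    simp only [tr, if_neg he]

/-- `2 ^ δ` is not larger than necessary -/
theorem pow_le {δ μ : Cardinal.{u}} (hδ : δ.IsRegular) (hG : GMP (Order.succ δ) δ) (hδμ : δ ≤ μ)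
    (h : ∀ d : δ.ord.ToType, (2 : Cardinal.{u}) ^ #(Set.Iio d) ≤ μ)
    (hμ : ∀ ν, δ < ν → ν ≤ μ → ν.ord.cof ≠ δ) : (2 : Cardinal.{u}) ^ δ ≤ μ := by
  have hδ0 := hδ.aleph0_le
  have hN := mk_nodes_le hδ0 hδμ h Set.univ
  obtain ⟨F, hF1, hF2, hF3⟩ := cov hδ _ (fun ν h1 h2 => hμ ν h1 (h2.trans hN))
    (nodes (Set.univ : Set (δ.ord.ToType → Bool))) rfl
  let nd : (δ.ord.ToType → Bool) → δ.ord.ToType → nodes (Set.univ : Set (δ.ord.ToType → Bool)) :=
    fun b d => ⟨(d, tr d b), b, Set.mem_univ _, rfl⟩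
  let B : Set (nodes (Set.univ : Set (δ.ord.ToType → Bool))) → Set (δ.ord.ToType → Bool) :=
    fun S => {b | #{d | nd b d ∈ S} = δ}
  have hB : ∀ S : F, #(B S.1) ≤ δ := by
    intro S
    refine kurepa hδ hG _ ?_
    have h1 : nodes (B S.1) ⊆ Set.range
        (fun p : δ.ord.ToType × S.1 => ((p.1, tr p.1 p.2.1.1.2) : _ × _)) := by
      rintro ⟨e, s⟩ ⟨b, hb, hs⟩
      simp only at hs
      obtain ⟨d, hd, hed⟩ : ∃ d, nd b d ∈ S.1 ∧ e ≤ d := by
        by_contra hcon
        push Not at hcon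
        have h2 : #{d | nd b d ∈ S.1} ≤ #(Set.Iio e) := mk_le_mk_of_subset fun d hd => hcon d hd
        have h3 : #(Set.Iio e) < δ := by
          have := mk_Iio_lt e (by rw [mk_ord_toType, Ordinal.type_toType])
          rwa [mk_ord_toType] at this
        rw [show #{d | nd b d ∈ S.1} = δ from hb] at h2
        exact absurd h2 (not_le.2 h3)
      refine ⟨(e, ⟨nd b d, hd⟩), ?_⟩
      show (e, tr e (tr d b)) = (e, s)
      rw [tr_tr hed, hs]
    refine (mk_le_mk_of_subset h1).trans (mk_range_le.trans ?_)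
    rw [mk_prod, lift_id, lift_id, mk_ord_toType]
    exact mul_le_of_le hδ0 le_rfl (hF2 _ S.2)
  have h1 : (⋃ S : F, B S.1) = Set.univ := by
    rw [Set.eq_univ_iff_forall]
    intro b
    obtain ⟨S, hS, h2⟩ := hF3 (nd b)
    exact Set.mem_iUnion.2 ⟨⟨S, hS⟩, h2⟩
  have h2 : #(δ.ord.ToType → Bool) = 2 ^ δ := by simp
  rw [← h2, ← mk_univ, ← h1]
  refine (mk_iUnion_le _).trans (mul_le_of_le (hδ0.trans hδμ) (hF1.trans (max_le hδμ hN)) ?_)
  exact ciSup_le' fun S => (hB S).trans hδμ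

/-- the whole binary tree of height `δ` is larger than `δ` -/
theorem pow_lt {δ : Cardinal.{u}} (hδ : δ.IsRegular) (hG : GMP (Order.succ δ) δ)
    (h : ∀ d : δ.ord.ToType, (2 : Cardinal.{u}) ^ #(Set.Iio d) ≤ δ) : False := by
  have h1 := kurepa hδ hG Set.univ (mk_nodes_le hδ.aleph0_le le_rfl h Set.univ)
  have h2 : #(δ.ord.ToType → Bool) = 2 ^ δ := by simp
  rw [mk_univ, h2] at h1
  exact absurd (cantor δ) (not_lt.2 h1)

end Pool.Agent.Helper39.GM
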