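import Mathlib

/-!
# MP_8c48dc_lc: guessing models, definitions

The sets are the elements of `ZFSet.{u}`, the cardinals those of `Cardinal.{u}`.
-/

set_option autoImplicit false

namespace Pool.Agent.Helper39.GM

open Cardinal

universe u

/-- `H_θ`: the sets of hereditary cardinality `< θ` (with a transitive superset of cardinality
`< θ`) -/
def H (θ : Cardinal.{u}) : Set ZFSet.{u} :=
  {x | ∃ t : ZFSet.{u}, t.IsTransitive ∧ x ⊆ t ∧ t.card < θ}

/-- `P_κ(A)`: the subsets of `A` of cardinality `< κ` -/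
def Pk (κ : Cardinal.{u}) (A : Set ZFSet.{u}) : Set (Set ZFSet.{u}) :=
  {M | M ⊆ A ∧ #M < Cardinal.lift.{u + 1} κ}

/-- clubs in `P_κ(A)` (Jech): unbounded, and closed under unions of nonempty chains of length
`< κ` -/
structure IsClub (κ : Cardinal.{u}) (A : Set ZFSet.{u}) (C : Set (Set ZFSet.{u})) : Prop where
  sub : C ⊆ Pk κ A
  unbounded : ∀ M ∈ Pk κ A, ∃ N ∈ C, M ⊆ N
  closed : ∀ D : Set (Set ZFSet.{u}), D ⊆ C → D.Nonempty → IsChain (· ⊆ ·) D →
    #D < Cardinal.lift.{u + 1} κ → ⋃₀ D ∈ C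

/-- stationary subsets of `P_κ(A)` -/
def IsStat (κ : Cardinal.{u}) (A : Set ZFSet.{u}) (S : Set (Set ZFSet.{u})) : Prop :=
  ∀ C, IsClub κ A C → ∃ M ∈ C, M ∈ S

/-- the relation symbol of the language of set theory -/
inductive Rel : ℕ → Type
  | mem : Rel 2

/-- the language of set theory -/
def setLang : FirstOrder.Language.{0, 0} := ⟨fun _ => Empty, Rel⟩

instance memStructure (A : Set ZFSet.{u}) : setLang.Structure A where
  funMap := fun f => nomatch f
  RelMap := fun {_} r => match r with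
    | .mem => fun v => (v 0 : ZFSet.{u}) ∈ (v 1 : ZFSet.{u})

/-- `M ≺ A` -/
def Elem (M A : Set ZFSet.{u}) : Prop :=
  ∃ h : M ⊆ A, ∀ (n : ℕ) (φ : setLang.Formula (Fin n)) (v : Fin n → M),
    φ.Realize (fun i => Set.inclusion h (v i)) ↔ φ.Realize v

/-- `M` is a `δ`-guessing model: every set `x` which is bounded in `M` and `δ`-approximated in `M`
is guessed in `M` -/
def IsGuessing (δ : Cardinal.{u}) (M : Set ZFSet.{u}) : Prop :=
  ∀ x : ZFSet.{u}, (∃ X ∈ M, x ⊆ X) → (∀ a ∈ M, a.card < δ → x ∩ a ∈ M) →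
    ∃ y ∈ M, ∀ z ∈ M, z ∈ y ↔ z ∈ x

/-- `GMP(κ, δ)`: for all sufficiently large regular `θ` the set of the `M ∈ P_κ(H_θ)` such that
`M ≺ H_θ`, `δ ∈ M` and `M` is a `δ`-guessing model is stationary in `P_κ(H_θ)` -/
def GMP (κ δ : Cardinal.{u}) : Prop :=
  ∃ θ₀ : Cardinal.{u}, ∀ θ : Cardinal.{u}, θ₀ ≤ θ → θ.IsRegular →
    IsStat κ (H θ) {M | Elem M (H θ) ∧ δ.ord.toZFSet ∈ M ∧ IsGuessing δ M}

end Pool.Agent.Helper39.GM
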