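import Pool.Agent.Helper39.GM.Br

/-!
# `δ`-guessing models are `δ₀`-guessing
-/

set_option autoImplicit false

namespace Pool.Agent.Helper39.GM

open Cardinal Ordinal

universe u

/-- closure of `N` under the Skolem functions -/
structure Closed (δ : Cardinal.{u}) (N : Set ZFSet.{u}) : Prop where
  ord : ∀ ξ < δ.ord, ξ.toZFSet ∈ N
  pow : ∀ ξ < δ.ord, ZFSet.powerset ξ.toZFSet ∈ N
  sk : ∀ (i : ULift.{u} (Fin 6) × δ.ord.ToType), ∀ x ∈ N, ∀ y ∈ N, sk i x y ∈ N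

variable {δ : Cardinal.{u}} {N : Set ZFSet.{u}}

lemma symm_mk {o ξ : Ordinal.{u}} (h : ξ < o) :
    ((ToType.mk.symm (ToType.mk ⟨ξ, h⟩ : o.ToType) : Set.Iio o) : Ordinal.{u}) = ξ := by
  rw [OrderIso.symm_apply_apply]

lemma Closed.en (h : Closed δ N) {x : ZFSet.{u}} (hx : x ∈ N) (hne : x ≠ ∅) {ξ : Ordinal.{u}}
    (hξ : ξ < δ.ord) : en x ξ ∈ N := by
  have h1 := h.sk (⟨0⟩, ToType.mk ⟨ξ, hξ⟩) x hx x hx
  simp only [Pool.Agent.Helper39.GM.sk] at h1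
  rw [if_neg hne, symm_mk] at h1
  exact h1

/-- small elements are subsets -/
lemma Closed.sub (h : Closed δ N) {x z : ZFSet.{u}} (hx : x ∈ N) (hc : x.card ≤ δ) (hz : z ∈ x) :
    z ∈ N := by
  obtain ⟨ξ, hξ, rfl⟩ := en_surj hz
  refine h.en hx (fun h0 => ?_) (hξ.trans_le (ord_le_ord.2 hc))
  rw [h0] at hz
  exact ZFSet.notMem_empty _ hz

/-- initial segments -/
noncomputable def ini (x : ZFSet.{u}) (α : Ordinal.{u}) : ZFSet.{u} :=
  ZFSet.sep (fun z => ∃ ξ < α, ξ < x.card.ord ∧ Pool.Agent.Helper39.GM.en x ξ = z) x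

lemma Closed.ini (h : Closed δ N) {x : ZFSet.{u}} (hx : x ∈ N) {α : Ordinal.{u}}
    (hα : α < δ.ord) : ini x α ∈ N := by
  have h1 := h.sk (⟨1⟩, ToType.mk ⟨α, hα⟩) x hx x hx
  simp only [Pool.Agent.Helper39.GM.sk] at h1
  rw [symm_mk] at h1
  exact h1

lemma card_ini_le (x : ZFSet.{u}) (α : Ordinal.{u}) : (ini x α).card ≤ α.card := by
  have h1 : ∀ z : ini x α, ∃ ξ : Set.Iio α, (ξ : Ordinal.{u}) < x.card.ord ∧
      Pool.Agent.Helper39.GM.en x ξ = z.1 := by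
    rintro ⟨z, hz⟩
    obtain ⟨-, ξ, h1, h2, h3⟩ := ZFSet.mem_sep.1 hz
    exact ⟨⟨ξ, h1⟩, h2, h3⟩
  choose f hf1 hf2 using h1
  have h2 : Function.Injective f := by
    intro z w hzw
    apply Subtype.ext
    rw [← hf2, ← hf2, hzw]
  rw [← Cardinal.lift_le.{u + 1}, ← ZFSet.cardinalMk_coe_sort, ← Cardinal.mk_Iio_ordinal]
  exact mk_le_of_injective h2

lemma Closed.idx (h : Closed δ N) (hδ : 0 < δ) (i : Fin 6) :
    ∃ d : δ.ord.ToType, ∀ x ∈ N, ∀ y ∈ N, Pool.Agent.Helper39.GM.sk (⟨i⟩, d) x y ∈ N := by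
  have h0 : (0 : Ordinal.{u}) < δ.ord := by
    rw [lt_ord, card_zero]
    exact hδ
  exact ⟨ToType.mk ⟨0, h0⟩, h.sk _⟩

/-- **The main lemma.** -/
theorem guessing_down {δ₀ : Cardinal.{u}} (hδ : ℵ₀ ≤ δ) (hN : Closed δ N)
    (hreg : ∀ l, δ₀ ≤ l → l < δ → l.IsRegular)
    (hBr : ∀ l, δ₀ ≤ l → l < δ → ∀ t : ZFSet.{u}, t.card < δ → (Br l t).card ≤ δ)
    (hg : IsGuessing δ N) : IsGuessing δ₀ N := by
  intro x hX hx
  have hδpos : 0 < δ := aleph0_pos.trans_le hδ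
  suffices key : ∀ l < δ, ∀ a ∈ N, a.card = l → x ∩ a ∈ N from
    hg x hX fun a ha hac => key _ hac a ha rfl
  intro l
  induction l using WellFoundedLT.induction with
  | ind l ih =>
  intro hlδ a ha hac
  rcases lt_or_ge l δ₀ with hl | hl
  · exact hx a ha (by rw [hac]; exact hl)
  have hlreg := hreg l hl hlδ
  have hlord : l.ord < δ.ord := ord_lt_ord.2 hlδ
  -- the code of `x ∩ a`
  let code : ZFSet.{u} → ZFSet.{u} := fun v =>
    ZFSet.sep (fun z => ∃ ξ : Ordinal.{u}, z = ξ.toZFSet ∧ en a ξ ∈ v) a.card.ord.toZFSet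
  have hcode : ∀ v ∈ N, code v ∈ N := by
    obtain ⟨d, hd⟩ := hN.idx hδpos 2
    exact fun v hv => hd a ha v hv
  obtain ⟨y, hy⟩ : ∃ y, y = code x := ⟨_, rfl⟩
  have hymem : ∀ ξ : Ordinal.{u}, ξ.toZFSet ∈ y ↔ ξ < l.ord ∧ en a ξ ∈ x := by
    intro ξ
    rw [hy, ZFSet.mem_sep, toZFSet_mem_toZFSet_iff, hac]
    constructor
    · rintro ⟨h1, η, h2, h3⟩
      rw [toZFSet_injective h2]
      exact ⟨toZFSet_injective h2 ▸ h1, h3⟩
    · rintro ⟨h1, h2⟩
      exact ⟨h1, ξ, rfl, h2⟩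
  have hysub : y ⊆ l.ord.toZFSet := by
    intro z hz
    rw [hy] at hz
    have := (ZFSet.mem_sep.1 hz).1
    rwa [hac] at this
  -- initial segments of `y`
  have hyini : ∀ α < l.ord, y ∩ α.toZFSet ∈ N := by
    intro α hα
    have h1 : ini a α ∈ N := hN.ini ha (hα.trans hlord)
    have h2 : (ini a α).card < l := (card_ini_le a α).trans_lt (lt_ord.1 hα)
    have h3 : x ∩ ini a α ∈ N := ih _ h2 (h2.trans hlδ) _ h1 rfl
    have h4 : y ∩ α.toZFSet = code (x ∩ ini a α) := by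
      ext z
      constructor
      · intro hz
        obtain ⟨hz1, hz2⟩ := ZFSet.mem_inter.1 hz
        obtain ⟨ξ, hξ, rfl⟩ := mem_toZFSet_iff.1 hz2
        obtain ⟨h5, h6⟩ := (hymem ξ).1 hz1
        refine ZFSet.mem_sep.2 ⟨?_, ξ, rfl, ZFSet.mem_inter.2 ⟨h6, ZFSet.mem_sep.2 ⟨?_, ξ, hξ, ?_, rfl⟩⟩⟩
        · rw [hac]
          exact toZFSet_mem_toZFSet_iff.2 h5
        · refine en_mem (fun h0 => ?_) ξ
          rw [h0, ZFSet.card_empty] at hac
          rw [← hac, ord_zero] at h5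
          exact absurd h5 not_lt_zero
        · rw [hac]
          exact h5
      · intro hz
        obtain ⟨hz1, ξ, rfl, hz2⟩ := ZFSet.mem_sep.1 hz
        obtain ⟨hz3, hz4⟩ := ZFSet.mem_inter.1 hz2
        obtain ⟨-, η, hη, hη', hη''⟩ := ZFSet.mem_sep.1 hz4
        rw [toZFSet_mem_toZFSet_iff] at hz1
        have h5 : η = ξ := en_inj hη' hz1 hη''
        subst h5
        refine ZFSet.mem_inter.2 ⟨(hymem η).2 ⟨by rw [← hac]; exact hz1, hz3⟩, ?_⟩
        exact toZFSet_mem_toZFSet_iff.2 hη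
    rw [h4]
    exact hcode _ h3
  -- it suffices to show `y ∈ N`
  suffices hyN : y ∈ N by
    obtain ⟨d, hd⟩ := hN.idx hδpos 3
    have h1 := hd a ha y hyN
    have h2 : x ∩ a = sk (⟨3⟩, d) a y := by
      ext z
      show _ ↔ z ∈ ZFSet.sep (fun z => ∃ ξ < a.card.ord, en a ξ = z ∧ ξ.toZFSet ∈ y) a
      rw [ZFSet.mem_inter, ZFSet.mem_sep]
      constructor
      · rintro ⟨h3, h4⟩
        obtain ⟨ξ, hξ, rfl⟩ := en_surj h4
        exact ⟨h4, ξ, hξ, rfl, (hymem ξ).2 ⟨by rw [← hac]; exact hξ, h3⟩⟩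
      · rintro ⟨h3, ξ, hξ, rfl, h4⟩
        exact ⟨((hymem ξ).1 h4).2, h3⟩
    rw [h2]
    exact h1
  by_cases hA : ∃ t ∈ N, t.card < δ ∧ ∀ α < l.ord, ∃ β, α ≤ β ∧ β < l.ord ∧ y ∩ β.toZFSet ∈ t
  · obtain ⟨t, ht, htc, h1⟩ := hA
    have h2 : Br l t ∈ N := by
      have h3 := hN.sk (⟨5⟩, ToType.mk ⟨l.ord, hlord⟩) t ht t ht
      simp only [sk] at h3
      rwa [symm_mk, card_ord] at h3
    refine hN.sub h2 (hBr l hl hlδ t htc) ?_
    exact ZFSet.mem_sep.2 ⟨ZFSet.mem_powerset.2 hysub, h1⟩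
  · push Not at hA
    exfalso
    obtain ⟨b, hb⟩ : ∃ b : ZFSet.{u}, b = ZFSet.sep (fun s => ∃ β < l.ord, s = y ∩ β.toZFSet)
      (ZFSet.powerset l.ord.toZFSet) := ⟨_, rfl⟩
    have hbmem : ∀ s, s ∈ b ↔ ∃ β < l.ord, s = y ∩ β.toZFSet := by
      intro s
      rw [hb, ZFSet.mem_sep]
      refine ⟨fun h => h.2, fun h => ⟨?_, h⟩⟩
      obtain ⟨β, -, rfl⟩ := h
      exact ZFSet.mem_powerset.2 fun z hz => hysub (ZFSet.mem_inter.1 hz).1
    obtain ⟨c, hcN, hc⟩ := hg b ⟨_, hN.pow _ hlord, fun z hz => by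
        rw [hb] at hz
        exact (ZFSet.mem_sep.1 hz).1⟩ (by
      intro t ht htc
      obtain ⟨α, hα, h1⟩ := hA t ht htc
      obtain ⟨d, hd⟩ := hN.idx hδpos 4
      have h2 := hd t ht _ (hyini α hα)
      have h3 : b ∩ t = sk (⟨4⟩, d) t (y ∩ α.toZFSet) := by
        ext s
        show _ ↔ s ∈ ZFSet.sep (fun s => ∃ γ : Ordinal.{u}, s = y ∩ α.toZFSet ∩ γ.toZFSet) t
        rw [ZFSet.mem_inter, ZFSet.mem_sep, hbmem]
        constructor
        · rintro ⟨⟨β, hβ, rfl⟩, h4⟩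
          refine ⟨h4, β, ?_⟩
          have h5 : β < α := by
            by_contra hcon
            exact h1 β (not_lt.1 hcon) hβ h4
          ext z
          simp only [ZFSet.mem_inter]
          refine ⟨fun h => ⟨⟨h.1, ?_⟩, h.2⟩, fun h => ⟨h.1.1, h.2⟩⟩
          exact toZFSet_monotone h5.le h.2
        · rintro ⟨h4, γ, rfl⟩
          refine ⟨⟨min α γ, (min_le_left _ _).trans_lt hα, ?_⟩, h4⟩
          ext z
          simp only [ZFSet.mem_inter]
          rcases le_total α γ with h | h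
          · rw [min_eq_left h]
            exact ⟨fun h' => h'.1, fun h' => ⟨h', toZFSet_monotone h h'.2⟩⟩
          · rw [min_eq_right h]
            exact ⟨fun h' => ⟨h'.1.1, h'.2⟩, fun h' => ⟨⟨h'.1, toZFSet_monotone h h'.2⟩, h'.2⟩⟩
      rw [h3]
      exact h2)
    have hc' : ∀ α < l.ord, y ∩ α.toZFSet ∈ c := fun α hα =>
      (hc _ (hyini α hα)).2 ((hbmem _).2 ⟨α, hα, rfl⟩)
    rcases lt_or_ge c.card δ with h1 | h1
    · obtain ⟨α, hα, h2⟩ := hA c hcN h1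
      exact h2 α le_rfl hα (hc' α hα)
    · have hne : c ≠ ∅ := by
        rintro rfl
        rw [ZFSet.card_empty] at h1
        exact absurd h1 (not_le.2 hδpos)
      have h2 : ∀ ξ : Set.Iio δ.ord, ∃ β : Set.Iio l.ord, en c ξ = y ∩ (β : Ordinal.{u}).toZFSet := by
        intro ξ
        have h3 := hN.en hcN hne ξ.2
        obtain ⟨β, hβ, h4⟩ := (hbmem _).1 ((hc _ h3).1 (en_mem hne ξ))
        exact ⟨⟨β, hβ⟩, h4⟩
      choose f hf using h2
      have h3 : Function.Injective f := by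
        intro ξ η h4
        have h5 : en c ξ = en c η := by rw [hf, hf, h4]
        exact Subtype.ext (en_inj (ξ.2.trans_le (ord_le_ord.2 h1))
          (η.2.trans_le (ord_le_ord.2 h1)) h5)
      have h4 := mk_le_of_injective h3
      rw [Cardinal.mk_Iio_ordinal, Cardinal.mk_Iio_ordinal, Cardinal.lift_le, card_ord,
        card_ord] at h4
      exact absurd h4 (not_le.2 hlδ)

end Pool.Agent.Helper39.GM
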