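import Pool.Agent.Helper39.GM.Down

/-!
# The simultaneous principle is uniform
-/

set_option autoImplicit false

namespace Pool.Agent.Helper39.GM

open Cardinal Ordinal

universe u

/-- `GMP(κ, δ)` is monotone in `δ` -/
lemma IsGuessing.mono {δ₀ δ : Cardinal.{u}} (h : δ₀ ≤ δ) {M : Set ZFSet.{u}}
    (hM : IsGuessing δ₀ M) : IsGuessing δ M :=
  fun x hX hx => hM x hX fun a ha hac => hx a ha (hac.trans_le h)

lemma empty_mem_H {θ : Cardinal.{u}} (hθ : 0 < θ) : ∅ ∈ H θ :=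
  ⟨∅, ZFSet.isTransitive_empty, fun _ h => h, by rwa [ZFSet.card_empty]⟩

lemma ord_mem_H {θ : Cardinal.{u}} {ξ : Ordinal.{u}} (h : ξ.card < θ) : ξ.toZFSet ∈ H θ :=
  ⟨ξ.toZFSet, (ZFSet.isOrdinal_toZFSet ξ).isTransitive, fun _ h => h, by rwa [card_toZFSet]⟩

lemma pow_mem_H {θ : Cardinal.{u}} {ξ : Ordinal.{u}} (h : 2 ^ ξ.card < θ) :
    ZFSet.powerset ξ.toZFSet ∈ H θ :=
  ⟨_, (ZFSet.isOrdinal_toZFSet ξ).isTransitive.powerset, fun _ h => h, by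
    rwa [ZFSet.card_powerset, card_toZFSet]⟩

lemma mem_H_of_mem {θ : Cardinal.{u}} {x y : ZFSet.{u}} (h : x ∈ y) (hy : y ∈ H θ) : x ∈ H θ := by
  obtain ⟨t, h1, h2, h3⟩ := hy
  exact ⟨t, h1, h1 x (h2 h), h3⟩

lemma card_lt_of_mem_H {θ : Cardinal.{u}} {x : ZFSet.{u}} (h : x ∈ H θ) : x.card < θ := by
  obtain ⟨t, h1, h2, h3⟩ := h
  exact (ZFSet.card_mono h2).trans_lt h3

lemma sk_mem_H {δ θ : Cardinal.{u}} (hθ : 2 ^ δ < θ) (i : ULift.{u} (Fin 6) × δ.ord.ToType)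
    (x : ZFSet.{u}) (hx : x ∈ H θ) (y : ZFSet.{u}) (_ : y ∈ H θ) : sk i x y ∈ H θ := by
  have h0 : 0 < θ := pos_of_gt hθ
  unfold sk
  split
  · split_ifs with h
    · exact empty_mem_H h0
    · exact mem_H_of_mem (en_mem h _) hx
  · exact H_subset (fun z hz => (ZFSet.mem_sep.1 hz).1) hx
  · refine H_subset (fun z hz => (ZFSet.mem_sep.1 hz).1) (ord_mem_H ?_)
    rw [card_ord]
    exact card_lt_of_mem_H hx
  · exact H_subset (fun z hz => (ZFSet.mem_sep.1 hz).1) hx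
  · exact H_subset (fun z hz => (ZFSet.mem_sep.1 hz).1) hx
  · refine H_subset (fun z hz => (ZFSet.mem_sep.1 hz).1) (pow_mem_H ?_)
    rw [card_ord]
    refine (power_le_power_left two_ne_zero ?_).trans_lt hθ
    have h1 := Set.mem_Iio.1 (ToType.mk.symm i.2).2
    exact (lt_ord.1 h1).le

/-- the club of the closed sets -/
lemma exists_club {δ θ : Cardinal.{u}} (hδ : ℵ₀ ≤ δ) (hθ : 2 ^ δ < θ) :
    ∃ C, IsClub (Order.succ δ) (H θ) C ∧ ∀ N ∈ C, Closed δ N := by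
  have hA : ∀ ξ < δ.ord, (2 : Cardinal.{u}) ^ ξ.card < θ := fun ξ hξ =>
    (power_le_power_left two_ne_zero (lt_ord.1 hξ).le).trans_lt hθ
  have h1 := club_binary (θ := θ) (G := sk (δ := δ)) hδ
    (Set.range (fun ξ : Set.Iio δ.ord => (ξ : Ordinal.{u}).toZFSet) ∪
      Set.range (fun ξ : Set.Iio δ.ord => ZFSet.powerset (ξ : Ordinal.{u}).toZFSet)) (by
      rintro _ (⟨ξ, rfl⟩ | ⟨ξ, rfl⟩)
      · exact ord_mem_H ((cantor _).trans (hA ξ ξ.2))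
      · exact pow_mem_H (hA ξ ξ.2)) (by
      have h2 : #(Set.Iio δ.ord) = Cardinal.lift.{u + 1} δ := by
        rw [Cardinal.mk_Iio_ordinal, card_ord]
      refine (mk_union_le _ _).trans (add_le_of_le (by simpa using hδ) ?_ ?_)
      · exact mk_range_le.trans h2.le
      · exact mk_range_le.trans h2.le) (by
      rw [mk_prod, Cardinal.lift_id, Cardinal.lift_id, mk_ord_toType]
      refine mul_le_of_le hδ ?_ le_rfl
      rw [mk_uLift, mk_fin]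
      simpa using (natCast_lt_aleph0 (n := 6)).le.trans hδ) (sk_mem_H hθ)
  refine ⟨_, h1, fun N hN => ⟨fun ξ hξ => ?_, fun ξ hξ => ?_, hN.2.2⟩⟩
  · exact hN.2.1 (Or.inl ⟨⟨ξ, hξ⟩, rfl⟩)
  · exact hN.2.1 (Or.inr ⟨⟨ξ, hξ⟩, rfl⟩)

/-- **Modelwise form.** -/
theorem modelwise {δ₀ δ : Cardinal.{u}} (hδ : ℵ₀ ≤ δ) (h0 : δ₀ ≤ δ)
    (hreg : ∀ l, δ₀ ≤ l → l < δ → l.IsRegular ∧ GMP (Order.succ l) l) :
    ∀ θ, 2 ^ δ < θ → ∃ C, IsClub (Order.succ δ) (H θ) C ∧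
      ∀ N ∈ C, (∀ ξ < δ.ord, ξ.toZFSet ∈ N) ∧ (IsGuessing δ N ↔ IsGuessing δ₀ N) := by
  intro θ hθ
  obtain ⟨C, hC, hC'⟩ := exists_club hδ hθ
  refine ⟨C, hC, fun N hN => ⟨(hC' N hN).ord, fun h => ?_, fun h => h.mono h0⟩⟩
  refine guessing_down hδ (hC' N hN) (fun l h1 h2 => (hreg l h1 h2).1) ?_ h
  intro l h1 h2 t ht
  rcases lt_or_ge t.card l with h3 | h3
  · refine (card_Br (hreg l h1 h2).1 le_rfl (hreg l h1 h2).2 ?_ t h3.le).trans h2.le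
    intro ν h4 h5
    exact absurd h4 (not_lt.2 h5)
  · refine (card_Br (δ := t.card) (hreg l h1 h2).1 h3 (hreg l h1 h2).2 ?_ t le_rfl).trans ht.le
    intro ν h4 h5 h6
    rw [(hreg ν (h1.trans h4.le) (h5.trans_lt ht)).1.cof_ord] at h6
    exact absurd h6 h4.ne'

/-- **From `GMP(δ⁺, δ)` to `GMP(δ⁺, δ₀)`.** -/
theorem gmp_down {δ₀ δ : Cardinal.{u}} (hδ : ℵ₀ ≤ δ) (h0 : δ₀ ≤ δ)
    (hreg : ∀ l, δ₀ ≤ l → l < δ → l.IsRegular ∧ GMP (Order.succ l) l)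
    (hG : GMP (Order.succ δ) δ) : GMP (Order.succ δ) δ₀ := by
  rcases h0.eq_or_lt with h0 | h0
  · rw [h0]
    exact hG
  obtain ⟨θ₀, hθ₀⟩ := hG
  refine ⟨max θ₀ (Order.succ (2 ^ δ)), fun θ hθ hθreg => ?_⟩
  intro C hC
  have h1 : 2 ^ δ < θ := Order.lt_succ_iff.2 le_rfl |>.trans_le ((le_max_right _ _).trans hθ)
  obtain ⟨C', hC', h2⟩ := modelwise hδ h0.le hreg θ h1
  obtain ⟨N, ⟨hN, hN'⟩, h3, -, h4⟩ :=
    hθ₀ θ ((le_max_left _ _).trans hθ) hθreg _ (club_inter hδ hC hC')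
  exact ⟨N, hN, h3, (h2 N hN').1 _ (ord_lt_ord.2 h0), (h2 N hN').2.1 h4⟩

/-- `GMP(δ⁺, δ₀)` implies `GMP(δ⁺, δ)` -/
theorem gmp_up {δ₀ δ : Cardinal.{u}} (hδ : ℵ₀ ≤ δ) (h0 : δ₀ ≤ δ)
    (hG : GMP (Order.succ δ) δ₀) : GMP (Order.succ δ) δ := by
  obtain ⟨θ₀, hθ₀⟩ := hG
  refine ⟨max θ₀ (Order.succ δ), fun θ hθ hθreg => ?_⟩
  intro C hC
  have hδθ : δ < θ := (Order.lt_succ_iff.2 le_rfl).trans_le ((le_max_right _ _).trans hθ)
  have h1 := club_binary (δ := δ) (θ := θ) (I := PEmpty.{u + 1}) (G := fun _ x _ => x) hδ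
    {δ.ord.toZFSet} (by
      rintro _ rfl
      exact ord_mem_H (by rwa [card_ord])) (by
      rw [mk_singleton]
      exact (one_lt_aleph0).le.trans (by simpa using hδ)) (by simp) (fun _ x hx _ _ => hx)
  obtain ⟨N, ⟨hN, hN'⟩, h3, -, h4⟩ :=
    hθ₀ θ ((le_max_left _ _).trans hθ) hθreg _ (club_inter hδ hC h1)
  exact ⟨N, hN, h3, hN'.2.1 rfl, h4.mono h0⟩

lemma aleph_le_aleph_add (a : Ordinal.{u}) (k : ℕ) : ℵ_ (a + 1) ≤ ℵ_ (a + k + 1) := by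
  rw [aleph_le_aleph]
  gcongr
  exact le_self_add

/-- the cardinals between `ℵ_(a+1)` and `ℵ_(a+k+1)` -/
lemma between {a : Ordinal.{u}} {k : ℕ}
    (h : ∀ m < k, GMP (ℵ_ (a + m + 2)) (ℵ_ (a + m + 1))) (l : Cardinal.{u})
    (h1 : ℵ_ (a + 1) ≤ l) (h2 : l < ℵ_ (a + k + 1)) : l.IsRegular ∧ GMP (Order.succ l) l := by
  obtain ⟨e, rfl⟩ := mem_range_aleph_iff.2 ((aleph0_le_aleph _).trans h1)
  rw [aleph_le_aleph] at h1
  rw [aleph_lt_aleph] at h2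
  -- `e = a + 1 + j`, `j < k`
  obtain ⟨j, hj⟩ : ∃ j, e = a + 1 + j := ⟨e - (a + 1), (Ordinal.add_sub_cancel_of_le h1).symm⟩
  have hjk : j < k := by
    rw [hj, add_assoc a k 1, add_assoc a 1 j] at h2
    have h3 := (add_lt_add_iff_left a).1 h2
    have h4 : (k : Ordinal.{u}) + 1 = 1 + k := by
      rw [← Nat.cast_one, ← Nat.cast_add, ← Nat.cast_add, add_comm]
    rw [h4] at h3
    exact (add_lt_add_iff_left _).1 h3
  obtain ⟨m, rfl⟩ := lt_omega0.1 (hjk.trans (natCast_lt_omega0 k))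
  have hmk : m < k := by exact_mod_cast hjk
  have h5 : e = a + m + 1 := by
    rw [hj, add_assoc, add_assoc, ← Nat.cast_one, ← Nat.cast_add, ← Nat.cast_add, add_comm 1 m]
  rw [h5]
  refine ⟨isRegular_aleph_add_one _, ?_⟩
  rw [← aleph_two]
  exact h m hmk

/-- **Theorem.** -/
theorem uniform (a : Ordinal.{u}) (n : ℕ) :
    (∀ k ≤ n, GMP (ℵ_ (a + k + 2)) (ℵ_ (a + k + 1))) ↔
      ∀ k ≤ n, GMP (ℵ_ (a + k + 2)) (ℵ_ (a + 1)) := by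
  constructor
  · intro h k hk
    rw [aleph_two]
    refine gmp_down (aleph0_le_aleph _) (aleph_le_aleph_add a k)
      (between fun m hm => h m (hm.le.trans hk)) ?_
    rw [← aleph_two]
    exact h k hk
  · intro h k hk
    rw [aleph_two]
    refine gmp_up (aleph0_le_aleph _) (aleph_le_aleph_add a k) ?_
    rw [← aleph_two]
    exact h k hk

/-- **Theorem, model by model.** -/
theorem modelwise_aleph (a : Ordinal.{u}) (n : ℕ)
    (h : ∀ k < n, GMP (ℵ_ (a + k + 2)) (ℵ_ (a + k + 1))) (θ : Cardinal.{u})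
    (hθ : 2 ^ ℵ_ (a + n + 1) < θ) : ∃ C, IsClub (ℵ_ (a + n + 2)) (H θ) C ∧
      ∀ N ∈ C, IsGuessing (ℵ_ (a + n + 1)) N ↔ IsGuessing (ℵ_ (a + 1)) N := by
  obtain ⟨C, h1, h2⟩ := modelwise (aleph0_le_aleph _) (aleph_le_aleph_add a n) (between h) θ hθ
  refine ⟨C, ?_, fun N hN => (h2 N hN).2⟩
  rw [aleph_two]
  exact h1

end Pool.Agent.Helper39.GM
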