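import Pool.Agent.Helper39.GM.Defs

/-!
# Guessing models and the failure of the weak Kurepa hypothesis
-/

set_option autoImplicit false

namespace Pool.Agent.Helper39.GM

open Cardinal

universe u

lemma H_subset {θ : Cardinal.{u}} {x y : ZFSet.{u}} (h : x ⊆ y) (hy : y ∈ H θ) : x ∈ H θ := by
  obtain ⟨t, h1, h2, h3⟩ := hy
  exact ⟨t, h1, fun z hz => h2 (h hz), h3⟩

lemma lt_lift_succ {δ : Cardinal.{u}} {c : Cardinal.{u + 1}} :
    c < Cardinal.lift.{u + 1} (Order.succ δ) ↔ c ≤ Cardinal.lift.{u + 1} δ := by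
  rw [lift_succ, Order.lt_succ_iff]

/-- the club of the sets closed under unary functions -/
lemma club_unary {δ θ : Cardinal.{u}} (hδ : ℵ₀ ≤ δ) (A : Set ZFSet.{u}) (hA : A ⊆ H θ)
    (hA' : #A ≤ Cardinal.lift.{u + 1} δ) {I : Type u} (hI : #I ≤ δ)
    (G : I → ZFSet.{u} → ZFSet.{u}) (hG : ∀ i a, G i a ⊆ a) :
    IsClub (Order.succ δ) (H θ)
      {M | M ∈ Pk (Order.succ δ) (H θ) ∧ A ⊆ M ∧ ∀ i, ∀ a ∈ M, G i a ∈ M} := by
  have hδ' : ℵ₀ ≤ Cardinal.lift.{u + 1} δ := by simpa using hδ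
  refine ⟨fun M hM => hM.1, ?_, ?_⟩
  · rintro M ⟨hM1, hM2⟩
    rw [lt_lift_succ] at hM2
    refine ⟨Set.range fun p : List I × ↥(M ∪ A) => p.1.foldr G p.2.1, ⟨⟨?_, ?_⟩, ?_, ?_⟩, ?_⟩
    · rintro _ ⟨⟨l, a, ha⟩, rfl⟩
      have h1 : a ∈ H θ := by
        rcases ha with ha | ha
        · exact hM1 ha
        · exact hA ha
      simp only
      induction l with
      | nil => exact h1
      | cons i l ih => exact H_subset (hG _ _) ih
    · rw [lt_lift_succ]
      have h1 : #(List I × ↥(M ∪ A)) ≤ Cardinal.lift.{u + 1} δ := by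
        rw [mk_prod]
        have h2 : Cardinal.lift.{u + 1} #(List I) ≤ Cardinal.lift.{u + 1} δ := by
          rw [lift_le]
          exact (mk_list_le_max I).trans (max_le hδ hI)
        have h3 : Cardinal.lift.{u} #↥(M ∪ A) ≤ Cardinal.lift.{u + 1} δ := by
          rw [lift_id'.{u, u + 1}]
          exact (mk_union_le M A).trans (add_le_of_le hδ' hM2 hA')
        exact mul_le_of_le hδ' h2 h3
      exact mk_range_le.trans h1
    · intro a ha
      exact ⟨([], ⟨a, Or.inr ha⟩), rfl⟩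
    · rintro i _ ⟨⟨l, a⟩, rfl⟩
      exact ⟨(i :: l, a), rfl⟩
    · intro a ha
      exact ⟨([], ⟨a, Or.inl ha⟩), rfl⟩
  · intro D hD hne _ hc
    rw [lt_lift_succ] at hc
    refine ⟨⟨?_, ?_⟩, ?_, ?_⟩
    · exact Set.sUnion_subset fun M hM => (hD hM).1.1
    · rw [lt_lift_succ]
      refine (mk_sUnion_le D).trans (mul_le_of_le hδ' hc ?_)
      refine ciSup_le' fun M => ?_
      have := (hD M.2).1.2
      rwa [lt_lift_succ] at this
    · obtain ⟨M, hM⟩ := hne
      exact fun a ha => ⟨M, hM, (hD hM).2.1 ha⟩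
    · rintro i a ⟨M, hM, ha⟩
      exact ⟨M, hM, (hD hM).2.2 i a ha⟩

/-- truncation of a branch at level `d` -/
def tr {D : Type u} [LinearOrder D] (d : D) (b : D → Bool) : D → Bool :=
  fun e => if e < d then b e else false

lemma tr_tr {D : Type u} [LinearOrder D] {d e : D} (h : d ≤ e) (b : D → Bool) :
    tr d (tr e b) = tr d b := by
  funext x
  simp only [tr]
  by_cases hx : x < d
  · rw [if_pos hx, if_pos hx, if_pos (hx.trans_le h)]
  · rw [if_neg hx, if_neg hx]

/-- the initial segments of the elements of `B` -/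
def nodes {D : Type u} [LinearOrder D] (B : Set (D → Bool)) : Set (D × (D → Bool)) :=
  {t | ∃ b ∈ B, t.2 = tr t.1 b}

/-- small sets are bounded -/
lemma exists_bound {δ : Cardinal.{u}} (hδ : δ.IsRegular) (S : Set δ.ord.ToType) (hS : #S < δ) :
    ∃ β, ∀ d ∈ S, d < β := by
  by_contra hcon
  push Not at hcon
  have h1 : IsCofinal S := fun β => hcon β
  have h2 := Order.cof_le h1
  rw [Ordinal.cof_toType, hδ.cof_ord] at h2
  exact absurd (hS.trans_le h2) (lt_irrefl _)

lemma exists_gt {δ : Cardinal.{u}} (hδ : δ.IsRegular) (d : δ.ord.ToType) : ∃ β, d < β := by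
  obtain ⟨β, hβ⟩ := exists_bound hδ {d} (by
    rw [mk_singleton]
    exact (one_lt_aleph0).trans_le hδ.aleph0_le)
  exact ⟨β, hβ d rfl⟩

/-- **The failure of the weak Kurepa hypothesis** (Cox - Krueger) -/
theorem kurepa {δ : Cardinal.{u}} (hδ : δ.IsRegular) (hG : GMP (Order.succ δ) δ)
    (B : Set (δ.ord.ToType → Bool)) (hB : #(nodes B) ≤ δ) : #B ≤ δ := by
  obtain ⟨θ₀, hθ₀⟩ := hG
  have hst := hθ₀ (Order.succ (max θ₀ δ)) ((le_max_left _ _).trans (Order.le_succ _))
    (isRegular_succ (hδ.aleph0_le.trans (le_max_right _ _)))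
  have hδθ : δ < Order.succ (max θ₀ δ) := (le_max_right _ _).trans_lt (Order.lt_succ _)
  generalize Order.succ (max θ₀ δ) = θ at hst hδθ
  -- the codes of the nodes
  obtain ⟨f⟩ : Nonempty (nodes B ↪ δ.ord.ToType) := by
    rw [← Cardinal.le_def, mk_ord_toType]
    exact hB
  obtain ⟨X, hX⟩ : ∃ X : ZFSet.{u}, X = δ.ord.toZFSet := ⟨_, rfl⟩
  obtain ⟨c, hc, hcX⟩ : ∃ c : nodes B → ZFSet.{u}, Function.Injective c ∧ ∀ t, c t ∈ X := by
    refine ⟨fun t => ((f t).toOrd : Ordinal.{u}).toZFSet, fun s t hst => ?_, fun t => ?_⟩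
    · have h1 := Ordinal.toZFSet_injective hst
      have h2 : (f s).toOrd = (f t).toOrd := Subtype.ext h1
      exact f.injective (Ordinal.ToType.mk.symm.injective h2)
    · rw [hX]
      exact Ordinal.toZFSet_mem_toZFSet_iff.2 (f t).toOrd.2
  have hXt : X.IsTransitive := by
    rw [hX]
    exact (ZFSet.isOrdinal_toZFSet _).isTransitive
  have hXc : X.card = δ := by
    rw [hX, Ordinal.card_toZFSet, card_ord]
  let G : nodes B → ZFSet.{u} → ZFSet.{u} := fun t a =>
    ZFSet.sep (fun z => ∃ s : nodes B, s.1.1 ≤ t.1.1 ∧ s.1.2 = tr s.1.1 t.1.2 ∧ c s = z) a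
  have hclub := club_unary (θ := θ) hδ.aleph0_le (Set.range c) (by
      rintro _ ⟨t, rfl⟩
      exact ⟨X, hXt, hXt _ (hcX t), by rw [hXc]; exact hδθ⟩)
    (by
      have h1 := mk_range_le_lift (f := c)
      rw [lift_id'.{u, u + 1}] at h1
      exact h1.trans (lift_le.2 hB)) hB G (fun t a z hz => (ZFSet.mem_sep.1 hz).1)
  obtain ⟨M, ⟨hM1, hcM, hGM⟩, -, hXM, hgu⟩ := hst _ hclub
  rw [← hX] at hXM
  -- the branches
  have hnode : ∀ (b : B) (d : δ.ord.ToType), ((d, tr d b.1) : _ × _) ∈ nodes B :=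
    fun b d => ⟨b.1, b.2, rfl⟩
  let nd : B → δ.ord.ToType → nodes B := fun b d => ⟨(d, tr d b.1), hnode b d⟩
  have hguess : ∀ b : B, ∃ y ∈ M, ∀ t, c t ∈ y ↔ ∃ d, nd b d = t := by
    intro b
    obtain ⟨y, hy, h1⟩ := hgu (ZFSet.sep (fun z => ∃ d, c (nd b d) = z) X)
      ⟨X, hXM, fun z hz => (ZFSet.mem_sep.1 hz).1⟩ (by
        intro a ha hac
        obtain ⟨β, hβ⟩ := exists_bound hδ {d | c (nd b d) ∈ a} (by
          refine lt_of_le_of_lt ?_ hac
          rw [← lift_le.{u + 1}, ← ZFSet.cardinalMk_coe_sort]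
          have h2 : Function.Injective
              (fun d : {d | c (nd b d) ∈ a} => (⟨c (nd b d.1), d.2⟩ : a)) := by
            intro d e hde
            have h3 := hc (congrArg Subtype.val hde)
            have h4 := congrArg (fun t : nodes B => t.1.1) h3
            exact Subtype.ext h4
          have h3 := lift_mk_le_lift_mk_of_injective h2
          rwa [lift_id'.{u, u + 1}] at h3)
        have h2 : ZFSet.sep (fun z => ∃ d, c (nd b d) = z) X ∩ a = G (nd b β) a := by
          ext z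
          rw [ZFSet.mem_inter, ZFSet.mem_sep, ZFSet.mem_sep]
          constructor
          · rintro ⟨⟨-, d, rfl⟩, hz⟩
            refine ⟨hz, nd b d, (hβ d hz).le, ?_, rfl⟩
            exact (tr_tr (hβ d hz).le b.1).symm
          · rintro ⟨hz, s, hs1, hs2, rfl⟩
            refine ⟨⟨hcX s, s.1.1, ?_⟩, hz⟩
            congr 1
            refine Subtype.ext (Prod.ext rfl ?_)
            show tr s.1.1 b.1 = s.1.2
            rw [hs2]
            exact (tr_tr hs1 b.1).symm
        rw [h2]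
        exact hGM _ a ha)
    refine ⟨y, hy, fun t => ?_⟩
    rw [h1 _ (hcM ⟨t, rfl⟩), ZFSet.mem_sep]
    constructor
    · rintro ⟨-, d, hd⟩
      exact ⟨d, hc hd⟩
    · rintro ⟨d, rfl⟩
      exact ⟨hcX _, d, rfl⟩
  choose y hyM hy using hguess
  have hinj : Function.Injective (fun b : B => (⟨y b, hyM b⟩ : M)) := by
    intro b b' hbb
    have h1 : y b = y b' := congrArg Subtype.val hbb
    refine Subtype.ext (funext fun e => ?_)
    obtain ⟨d, hd⟩ := exists_gt hδ e
    have h2 : c (nd b d) ∈ y b' := by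
      rw [← h1]
      exact (hy b _).2 ⟨d, rfl⟩
    obtain ⟨d', hd'⟩ := (hy b' _).1 h2
    have h3 := congrArg Subtype.val hd'
    have h4 : d' = d := congrArg Prod.fst h3
    subst h4
    have h5 : tr d' b'.1 = tr d' b.1 := congrArg Prod.snd h3
    have h6 := congrFun h5 e
    simp only [tr, if_pos hd] at h6
    exact h6.symm
  have h1 := lift_mk_le_lift_mk_of_injective hinj
  rw [lift_id'.{u, u + 1}] at h1
  have h2 := h1.trans_lt hM1.2
  rw [lt_lift_succ, lift_le] at h2
  exact h2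

end Pool.Agent.Helper39.GM
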