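import Pool.Agent.Helper39.GM.Cov

/-!
# Simultaneous guessing model principles and the continuum
-/

set_option autoImplicit false

namespace Pool.Agent.Helper39.GM

open Cardinal Ordinal

universe u

lemma Iio_lt {δ : Cardinal.{u}} (d : δ.ord.ToType) : #(Set.Iio d) < δ := by
  have := mk_Iio_lt d (by rw [mk_ord_toType, Ordinal.type_toType])
  rwa [mk_ord_toType] at this

lemma Iio_le {c : Ordinal.{u}} (d : (ℵ_ (c + 1)).ord.ToType) : #(Set.Iio d) ≤ ℵ_ c :=
  Order.lt_succ_iff.1 ((Iio_lt d).trans_eq (succ_aleph c).symm)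

lemma aleph_two (c : Ordinal.{u}) : ℵ_ (c + 2) = Order.succ (ℵ_ (c + 1)) := by
  rw [succ_aleph, add_assoc, one_add_one_eq_two]

/-- singular cardinals below `ℵ_ (ω_ (a + 1))` have cofinality at most `ℵ_ a` -/
lemma cof_ne {a c : Ordinal.{u}} (hac : a ≤ c) {ν : Cardinal.{u}} (h1 : ℵ_ (c + 1) < ν)
    (h2 : ν < ℵ_ (ω_ (a + 1))) : ν.ord.cof ≠ ℵ_ (c + 1) := by
  intro h
  have hν : ℵ₀ ≤ ν := (aleph0_le_aleph _).trans h1.le
  obtain ⟨η, rfl⟩ := mem_range_aleph_iff.2 hν
  rw [aleph_lt_aleph] at h2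
  have hsing : (ℵ_ η).IsSingular := by
    refine IsSingular.of_not_isRegular hν fun hreg => ?_
    rw [hreg.cof_ord] at h
    exact absurd h h1.ne'
  have hlim := hsing.isSuccLimit_of_aleph
  rw [ord_aleph, cof_map_of_isNormal isNormal_omega hlim] at h
  have h3 : ω_ (c + 1) ≤ η := by
    rw [← ord_aleph, ← h]
    exact ord_cof_le η
  have h4 : ω_ (a + 1) ≤ ω_ (c + 1) := by
    rw [omega_le_omega]
    gcongr
  exact absurd (h4.trans h3) (not_le.2 h2)

/-- one step -/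
lemma step {a c : Ordinal.{u}} (hac : a ≤ c) (hG : GMP (ℵ_ (c + 2)) (ℵ_ (c + 1)))
    {μ : Cardinal.{u}} (hμ : 2 ^ ℵ_ c ≤ μ) (hμ' : μ < ℵ_ (ω_ (a + 1))) :
    2 ^ ℵ_ (c + 1) ≤ μ := by
  rw [aleph_two] at hG
  refine pow_le (isRegular_aleph_add_one c) hG ?_ (fun d => ?_) fun ν h1 h2 =>
    cof_ne hac h1 (h2.trans_lt hμ')
  · rw [← succ_aleph]
    exact (Order.succ_le_of_lt (cantor _)).trans hμ
  · exact le_trans (power_le_power_left two_ne_zero (Iio_le d)) hμ

lemma card_le_of_lt {a c : Ordinal.{u}} (hc : c < ω_ (a + 1)) : c.card ≤ ℵ_ a := by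
  rw [← ord_aleph, lt_ord, ← succ_aleph, Order.lt_succ_iff] at hc
  exact hc

/-- the continuum function is constant -/
theorem const {a b : Ordinal.{u}} (hb : b < ω_ (a + 1))
    (hG : ∀ c, a ≤ c → c < b → GMP (ℵ_ (c + 2)) (ℵ_ (c + 1)))
    (h : (2 : Cardinal.{u}) ^ ℵ_ a < ℵ_ (ω_ (a + 1))) (c : Ordinal.{u}) :
    a ≤ c → c ≤ b → (2 : Cardinal.{u}) ^ ℵ_ c ≤ 2 ^ ℵ_ a := by
  induction c using Ordinal.limitRecOn with
  | zero =>
    intro h1 _
    have : a = 0 := by simpa using h1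
    rw [this]
  | add_one c ih =>
    intro h1 h2
    rcases h1.eq_or_lt with h1 | h1
    · rw [h1]
    · have h3 : a ≤ c := Order.lt_add_one_iff.1 h1
      have h4 : c < b := (Order.lt_add_one_iff.2 le_rfl).trans_le h2
      exact step h3 (hG c h3 h4) (ih h3 h4.le) h
  | limit c hc ih =>
    intro h1 h2
    have hcc : c.card ≤ ℵ_ a := card_le_of_lt (h2.trans_lt hb)
    have h3 : ℵ_ c ≤ Cardinal.sum fun i : c.ToType => ℵ_ (ToType.mk.symm i : Ordinal.{u}) := by
      rw [aleph_limit hc]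
      refine ciSup_le' fun i => ?_
      have h4 := le_sum (fun i : c.ToType => ℵ_ (ToType.mk.symm i : Ordinal.{u})) (ToType.mk i)
      simpa using h4
    calc (2 : Cardinal.{u}) ^ ℵ_ c
        ≤ 2 ^ Cardinal.sum fun i : c.ToType => ℵ_ (ToType.mk.symm i : Ordinal.{u}) :=
          power_le_power_left two_ne_zero h3
      _ = Cardinal.prod fun i : c.ToType => (2 : Cardinal.{u}) ^ ℵ_ (ToType.mk.symm i : Ordinal) :=
          power_sum _ _
      _ ≤ Cardinal.prod fun _ : c.ToType => (2 : Cardinal.{u}) ^ ℵ_ a := by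
          refine prod_le_prod _ _ fun i => ?_
          rcases le_total a (ToType.mk.symm i : Ordinal) with h5 | h5
          · exact ih _ (ToType.mk.symm i).2 h5 ((ToType.mk.symm i).2.le.trans h2)
          · exact power_le_power_left two_ne_zero (aleph_le_aleph.2 h5)
      _ = (2 ^ ℵ_ a) ^ c.card := by simp
      _ = 2 ^ (ℵ_ a * c.card) := (power_mul).symm
      _ ≤ 2 ^ ℵ_ a := power_le_power_left two_ne_zero
          (mul_le_of_le (aleph0_le_aleph a) le_rfl hcc)

/-- **Main theorem.** -/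
theorem main {a b : Ordinal.{u}} (hb : b < ω_ (a + 1))
    (hG : ∀ c, a ≤ c → c < b → GMP (ℵ_ (c + 2)) (ℵ_ (c + 1))) :
    ℵ_ b < 2 ^ ℵ_ a := by
  by_contra hcon
  push Not at hcon
  have hlt : (2 : Cardinal.{u}) ^ ℵ_ a < ℵ_ (ω_ (a + 1)) := hcon.trans_lt (aleph_lt_aleph.2 hb)
  obtain ⟨g, hg⟩ := mem_range_aleph_iff.2 ((aleph0_le_aleph a).trans (cantor (ℵ_ a)).le)
  have hgb : g ≤ b := by
    rw [← aleph_le_aleph, hg]
    exact hcon
  have hag : a < g := by
    rw [← aleph_lt_aleph, hg]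
    exact cantor _
  have hcof : ℵ_ a < (ℵ_ g).ord.cof := by
    rw [hg]
    exact lt_cof_ord_power (aleph0_le_aleph a) one_lt_two
  -- `g` is a successor
  rcases zero_or_succ_or_isSuccLimit g with h0 | ⟨c, rfl⟩ | hlim
  · exact absurd (h0 ▸ hag) (not_lt.2 zero_le)
  · rw [Order.succ_eq_add_one] at *
    have hac : a ≤ c := Order.lt_add_one_iff.1 hag
    have hcb : c < b := (Order.lt_add_one_iff.2 le_rfl).trans_le hgb
    have h1 := const hb hG hlt c hac hcb.le
    have h2 := hG c hac hcb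
    rw [aleph_two] at h2
    refine pow_lt (isRegular_aleph_add_one c) h2 fun d => ?_
    exact le_trans (power_le_power_left two_ne_zero (Iio_le d)) (h1.trans hg.ge)
  · rw [ord_aleph, cof_map_of_isNormal isNormal_omega hlim] at hcof
    exact absurd (hcof.trans_le ((cof_le_card g).trans (card_le_of_lt (hgb.trans_lt hb))))
      (lt_irrefl _)

end Pool.Agent.Helper39.GM
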