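import Pool.Agent.Helper39.GM.Main

/-!
# From `δ`-guessing to `δ₀`-guessing
-/

set_option autoImplicit false

namespace Pool.Agent.Helper39.GM

open Cardinal Ordinal

universe u

section club

/-- closure under binary functions -/
def cl {I : Type u} (G : I → ZFSet.{u} → ZFSet.{u} → ZFSet.{u}) (s : Set ZFSet.{u}) :
    ℕ → Set ZFSet.{u}
  | 0 => s
  | k + 1 => cl G s k ∪ Set.range fun p : I × cl G s k × cl G s k => G p.1 p.2.1 p.2.2

variable {I : Type u} {G : I → ZFSet.{u} → ZFSet.{u} → ZFSet.{u}} {s : Set ZFSet.{u}}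

lemma cl_mono {k l : ℕ} (h : k ≤ l) : cl G s k ⊆ cl G s l := by
  induction h with
  | refl => exact subset_rfl
  | step _ ih => exact ih.trans Set.subset_union_left

lemma cl_card {c : Cardinal.{u + 1}} (hc : ℵ₀ ≤ c) (hI : Cardinal.lift.{u + 1} #I ≤ c)
    (hs : #s ≤ c) (k : ℕ) : #(cl G s k) ≤ c := by
  induction k with
  | zero => exact hs
  | succ k ih =>
    refine (mk_union_le _ _).trans (add_le_of_le hc ih (mk_range_le.trans ?_))
    rw [mk_prod, mk_prod, Cardinal.lift_id, Cardinal.lift_id'.{u, u + 1}]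
    exact mul_le_of_le hc hI (mul_le_of_le hc ih ih)

lemma cl_sub {θ : Cardinal.{u}} (hG : ∀ i, ∀ x ∈ H θ, ∀ y ∈ H θ, G i x y ∈ H θ) (hs : s ⊆ H θ)
    (k : ℕ) : cl G s k ⊆ H θ := by
  induction k with
  | zero => exact hs
  | succ k ih =>
    refine Set.union_subset ih ?_
    rintro _ ⟨⟨i, x, y⟩, rfl⟩
    exact hG i _ (ih x.2) _ (ih y.2)

/-- the club of the sets closed under binary functions -/
lemma club_binary {δ θ : Cardinal.{u}} (hδ : ℵ₀ ≤ δ) (A : Set ZFSet.{u}) (hA : A ⊆ H θ)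
    (hA' : #A ≤ Cardinal.lift.{u + 1} δ) (hI : #I ≤ δ)
    (hG : ∀ i, ∀ x ∈ H θ, ∀ y ∈ H θ, G i x y ∈ H θ) :
    IsClub (Order.succ δ) (H θ)
      {M | M ∈ Pk (Order.succ δ) (H θ) ∧ A ⊆ M ∧ ∀ i, ∀ x ∈ M, ∀ y ∈ M, G i x y ∈ M} := by
  have hδ' : ℵ₀ ≤ Cardinal.lift.{u + 1} δ := by simpa using hδ
  refine ⟨fun M hM => hM.1, ?_, ?_⟩
  · rintro M ⟨hM1, hM2⟩
    rw [lt_lift_succ] at hM2
    have hMA : #↥(M ∪ A) ≤ Cardinal.lift.{u + 1} δ :=
      (mk_union_le M A).trans (add_le_of_le hδ' hM2 hA')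
    refine ⟨⋃ k : ℕ, cl G (M ∪ A) k, ⟨⟨?_, ?_⟩, ?_, ?_⟩, ?_⟩
    · exact Set.iUnion_subset fun k => cl_sub hG (Set.union_subset hM1 hA) k
    · rw [lt_lift_succ]
      have h1 := mk_iUnion_le_lift (fun k : ℕ => cl G (M ∪ A) k)
      rw [Cardinal.lift_uzero] at h1
      refine h1.trans (mul_le_of_le hδ' ?_ ?_)
      · simpa using hδ
      · refine ciSup_le' fun k => ?_
        rw [Cardinal.lift_uzero]
        exact cl_card hδ' (Cardinal.lift_le.2 hI) hMA k
    · exact (Set.subset_union_right).trans (Set.subset_iUnion (fun k : ℕ => cl G (M ∪ A) k) 0)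
    · intro i x hx y hy
      obtain ⟨k, hk⟩ := Set.mem_iUnion.1 hx
      obtain ⟨l, hl⟩ := Set.mem_iUnion.1 hy
      refine Set.mem_iUnion.2 ⟨max k l + 1, Or.inr ⟨⟨i, ⟨x, cl_mono (le_max_left _ _) hk⟩,
        ⟨y, cl_mono (le_max_right _ _) hl⟩⟩, rfl⟩⟩
    · exact (Set.subset_union_left).trans (Set.subset_iUnion (fun k : ℕ => cl G (M ∪ A) k) 0)
  · intro D hD hne hch hc
    rw [lt_lift_succ] at hc
    refine ⟨⟨?_, ?_⟩, ?_, ?_⟩
    · exact Set.sUnion_subset fun M hM => (hD hM).1.1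
    · rw [lt_lift_succ]
      refine (mk_sUnion_le D).trans (mul_le_of_le hδ' hc ?_)
      refine ciSup_le' fun M => ?_
      have := (hD M.2).1.2
      rwa [lt_lift_succ] at this
    · obtain ⟨M, hM⟩ := hne
      exact fun a ha => ⟨M, hM, (hD hM).2.1 ha⟩
    · rintro i x ⟨M, hM, hx⟩ y ⟨N, hN, hy⟩
      rcases hch.total hM hN with h | h
      · exact ⟨N, hN, (hD hN).2.2 i x (h hx) y hy⟩
      · exact ⟨M, hM, (hD hM).2.2 i x hx y (h hy)⟩

/-- the intersection of two clubs -/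
lemma club_inter {δ : Cardinal.{u}} {K : Set ZFSet.{u}} (hδ : ℵ₀ ≤ δ) {C C' : Set (Set ZFSet.{u})}
    (h : IsClub (Order.succ δ) K C) (h' : IsClub (Order.succ δ) K C') :
    IsClub (Order.succ δ) K (C ∩ C') := by
  refine ⟨fun M hM => h.sub hM.1, ?_, ?_⟩
  · intro M hM
    choose! f hf hf' using h.unbounded
    choose! g hg hg' using h'.unbounded
    let N : ℕ → Set ZFSet.{u} := fun k => Nat.rec (f M) (fun _ X => f (g X)) k
    have hN0 : N 0 = f M := rfl
    have hN : ∀ k, N (k + 1) = f (g (N k)) := fun _ => rfl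
    have hNC : ∀ k, N k ∈ C := by
      intro k
      induction k with
      | zero => exact hf M hM
      | succ k ih =>
        rw [hN]
        exact hf _ (h'.sub (hg _ (h.sub ih)))
    have h1 : ∀ k, N k ⊆ g (N k) := fun k => hg' _ (h.sub (hNC k))
    have h2 : ∀ k, g (N k) ⊆ N (k + 1) := fun k => by
      rw [hN]
      exact hf' _ (h'.sub (hg _ (h.sub (hNC k))))
    have hmono : Monotone N := monotone_nat_of_le_succ fun k => (h1 k).trans (h2 k)
    have hmono' : Monotone fun k => g (N k) :=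
      monotone_nat_of_le_succ fun k => (h2 k).trans (h1 (k + 1))
    have hc : ∀ F : ℕ → Set ZFSet.{u}, #(Set.range F) < Cardinal.lift.{u + 1} (Order.succ δ) := by
      intro F
      have h3 : #(Set.range F) ≤ ℵ₀ := by
        have := mk_range_le_lift (f := F)
        simpa using this
      rw [lt_lift_succ]
      exact h3.trans (by simpa using hδ)
    have e : ⋃₀ Set.range N = ⋃₀ Set.range fun k => g (N k) := by
      apply subset_antisymm
      · rintro x ⟨_, ⟨k, rfl⟩, hx⟩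
        exact ⟨_, ⟨k, rfl⟩, h1 k hx⟩
      · rintro x ⟨_, ⟨k, rfl⟩, hx⟩
        exact ⟨_, ⟨k + 1, rfl⟩, h2 k hx⟩
    refine ⟨⋃₀ Set.range N, ⟨?_, ?_⟩, ?_⟩
    · refine h.closed _ ?_ (Set.range_nonempty _) ?_ (hc _)
      · rintro _ ⟨k, rfl⟩
        exact hNC k
      · exact hmono.isChain_range
    · rw [e]
      refine h'.closed _ ?_ (Set.range_nonempty _) ?_ (hc _)
      · rintro _ ⟨k, rfl⟩
        exact hg _ (h.sub (hNC k))
      · exact hmono'.isChain_range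
    · exact (hf' M hM).trans (Set.subset_sUnion_of_mem ⟨0, hN0⟩)
  · intro D hD hne hch hc
    exact ⟨h.closed D (fun M hM => (hD hM).1) hne hch hc,
      h'.closed D (fun M hM => (hD hM).2) hne hch hc⟩

end club

/-! ### Enumerations -/

lemma exists_en (a : ZFSet.{u}) : ∃ e : Ordinal.{u} → ZFSet.{u}, (a ≠ ∅ → ∀ ξ, e ξ ∈ a) ∧
    (∀ ξ η, ξ < a.card.ord → η < a.card.ord → e ξ = e η → ξ = η) ∧
    ∀ z ∈ a, ∃ ξ < a.card.ord, e ξ = z := by
  classical
  obtain ⟨E⟩ : Nonempty (a.card.ord.ToType ≃ Shrink.{u} a) := by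
    rw [← Cardinal.eq, mk_ord_toType]
    rfl
  obtain ⟨z₀, hz₀⟩ : ∃ z₀ : ZFSet.{u}, a ≠ ∅ → z₀ ∈ a := by
    by_cases h : a = ∅
    · exact ⟨∅, fun h' => absurd h h'⟩
    · obtain ⟨z, hz⟩ : ∃ z, z ∈ a := by
        by_contra hcon
        push Not at hcon
        exact h ((ZFSet.eq_empty a).2 hcon)
      exact ⟨z, fun _ => hz⟩
  refine ⟨fun ξ => if h : ξ < a.card.ord then
    ((equivShrink a).symm (E (ToType.mk ⟨ξ, h⟩)) : a).1 else z₀, ?_, ?_, ?_⟩
  · intro ha ξ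
    by_cases h : ξ < a.card.ord
    · simp only [dif_pos h]
      exact ((equivShrink a).symm (E (ToType.mk ⟨ξ, h⟩)) : a).2
    · simp only [dif_neg h]
      exact hz₀ ha
  · intro ξ η hξ hη he
    simp only [dif_pos hξ, dif_pos hη] at he
    have h1 := (equivShrink a).symm.injective (Subtype.ext he)
    have h2 := ToType.mk.injective (E.injective h1)
    exact congrArg Subtype.val h2
  · intro z hz
    obtain ⟨d, hd⟩ : ∃ d, d = E.symm (equivShrink a ⟨z, hz⟩) := ⟨_, rfl⟩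
    refine ⟨(ToType.mk.symm d : Ordinal), (ToType.mk.symm d).2, ?_⟩
    have h1 : ((ToType.mk.symm d : Ordinal.{u}) : Ordinal.{u}) < a.card.ord :=
      (ToType.mk.symm d).2
    simp only [dif_pos h1]
    have h2 : (ToType.mk ⟨(ToType.mk.symm d : Ordinal.{u}), h1⟩ : a.card.ord.ToType) = d :=
      ToType.mk.apply_symm_apply d
    rw [h2, hd, E.apply_symm_apply, Equiv.symm_apply_apply]

/-- an enumeration of `a` -/
noncomputable def en (a : ZFSet.{u}) : Ordinal.{u} → ZFSet.{u} := (exists_en a).choose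

lemma en_mem {a : ZFSet.{u}} (h : a ≠ ∅) (ξ : Ordinal.{u}) : en a ξ ∈ a :=
  (exists_en a).choose_spec.1 h ξ

lemma en_inj {a : ZFSet.{u}} {ξ η : Ordinal.{u}} (hξ : ξ < a.card.ord) (hη : η < a.card.ord)
    (h : en a ξ = en a η) : ξ = η :=
  (exists_en a).choose_spec.2.1 ξ η hξ hη h

lemma en_surj {a z : ZFSet.{u}} (h : z ∈ a) : ∃ ξ < a.card.ord, en a ξ = z :=
  (exists_en a).choose_spec.2.2 z h

/-- the cofinal branches of `t` in `P(λ)` -/
noncomputable def Br (l : Cardinal.{u}) (t : ZFSet.{u}) : ZFSet.{u} :=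
  ZFSet.sep (fun y => ∀ α < l.ord, ∃ β, α ≤ β ∧ β < l.ord ∧ y ∩ β.toZFSet ∈ t)
    (ZFSet.powerset l.ord.toZFSet)

open Classical in
/-- the Skolem functions -/
noncomputable def sk {δ : Cardinal.{u}} (i : ULift.{u} (Fin 6) × δ.ord.ToType)
    (x y : ZFSet.{u}) : ZFSet.{u} :=
  match i.1.down with
  | 0 => if x = ∅ then ∅ else en x (ToType.mk.symm i.2 : Ordinal.{u})
  | 1 => ZFSet.sep (fun z => ∃ ξ < (ToType.mk.symm i.2 : Ordinal.{u}), ξ < x.card.ord ∧
      en x ξ = z) x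
  | 2 => ZFSet.sep (fun z => ∃ ξ : Ordinal.{u}, z = ξ.toZFSet ∧ en x ξ ∈ y) x.card.ord.toZFSet
  | 3 => ZFSet.sep (fun z => ∃ ξ < x.card.ord, en x ξ = z ∧ ξ.toZFSet ∈ y) x
  | 4 => ZFSet.sep (fun s => ∃ α : Ordinal.{u}, s = y ∩ α.toZFSet) x
  | 5 => Br (ToType.mk.symm i.2 : Ordinal.{u}).card x

end Pool.Agent.Helper39.GM
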